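import Pool.Agent.Y225.Gor.Final
import Pool.Agent.Y225.Gor.TransMain
import Pool.Agent.Y225.Gor.Const
import Pool.Agent.Y225.Gor.CovRD
import Pool.Agent.Y225.Gor.Grow2
import Pool.Agent.Y225.Gor.CountMain
import Pool.Agent.Y155.Gor.CHART
import Pool.Agent.Y155.Gor.EXT
import Pool.Agent.Y155.Gor.ALG
import Pool.Agent.Y155.Gor.PCOV
import Pool.Agent.Y155.Gor.ROOT
import Pool.Agent.Y852.Gor.FG

/-!
# An explicit bound by the rank of the first cohomology group

For a connected smooth closed algebraic submanifold `Y` of `ℂ^m` let `r` be a number such that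
any `r + 1` continuous maps `Y → ℂ \ {0}` are multiplicatively dependent modulo exponentials of
continuous functions (`RankLe Y r`, that is, `rank H^1(Y, ℤ) ≤ r`). Then there are at most `64 ^ r`
non-constant holomorphic maps `Y → ℂ \ {0, 1}`; and such an `r` always exists.
-/

set_option autoImplicit false

open Pool.Agent.Y225.Gor

namespace Pool.Agent.Results.MP_9bd952_ag.RankBound

/-- Any `r + 1` continuous nowhere zero functions `u_0, …, u_r` on the space `T` satisfy a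
non-trivial relation `∏ u_l ^ (a_l) = exp L` with integers `a_l` and a continuous function `L`.
As the group of continuous maps `T → ℂ \ {0}` modulo exponentials is `H^1(T, ℤ)` for a manifold
`T`, this says `rank H^1(T, ℤ) ≤ r`. -/
def RankLe (T : Type) [TopologicalSpace T] (r : ℕ) : Prop :=
  ∀ u : Fin (r + 1) → T → ℂ, (∀ l, Continuous (u l)) → (∀ l t, u l t ≠ 0) →
    ∃ a : Fin (r + 1) → ℤ, a ≠ 0 ∧ ∃ L : T → ℂ, Continuous L ∧
      ∀ t, ∏ l, u l t ^ a l = Complex.exp (L t)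

/-- `Y` is a connected smooth closed algebraic submanifold of `ℂ^m`. -/
structure AffineManifold {m : ℕ} (Y : Set (Fin m → ℂ)) : Prop where
  alg : ∃ S : Set (MvPolynomial (Fin m) ℂ), Y = {y | ∀ P ∈ S, MvPolynomial.eval y P = 0}
  smooth : ∀ p ∈ Y, ∃ U : Set (Fin m → ℂ), IsOpen U ∧ p ∈ U ∧
    ∃ (k : ℕ) (F : (Fin m → ℂ) → (Fin k → ℂ)), DifferentiableOn ℂ F U ∧
      (∀ x ∈ U, Function.Surjective ⇑(fderiv ℂ F x)) ∧ Y ∩ U = U ∩ F ⁻¹' {0}
  conn : IsConnected Y

/-- The set of non-constant holomorphic maps `Y → ℂ \ {0, 1}` (a map is holomorphic if near every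
point of `Y` it is the restriction of a holomorphic function of the ambient space). -/
def HolStar {m : ℕ} (Y : Set (Fin m → ℂ)) : Set (↥Y → ℂ) :=
  {g : ↥Y → ℂ | (∀ y, g y ≠ 0 ∧ g y ≠ 1) ∧ (∃ a b, g a ≠ g b) ∧
    ∀ p : ↥Y, ∃ U : Set (Fin m → ℂ), IsOpen U ∧ (p : Fin m → ℂ) ∈ U ∧
      ∃ h : (Fin m → ℂ) → ℂ, DifferentiableOn ℂ h U ∧
        ∀ y : ↥Y, (y : Fin m → ℂ) ∈ U → h y = g y}

theorem finiteRank_iff {m : ℕ} {Y : Set (Fin m → ℂ)} {r : ℕ} (h : RankLe Y r) :
    H113G.FiniteRank Y r := by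
  classical
  intro g hg hg0
  obtain ⟨a, ha, L, hL, hexp⟩ := h (fun l y => g l y)
    (fun l => continuousOn_iff_continuous_domRestrict.1 (hg l)) (fun l t => hg0 l t t.2)
  refine ⟨a, ha, fun y => if hy : y ∈ Y then L ⟨y, hy⟩ else 0, ?_, ?_⟩
  · rw [continuousOn_iff_continuous_domRestrict]
    have : Y.domRestrict (fun y => if hy : y ∈ Y then L ⟨y, hy⟩ else 0) = L := by
      funext y
      simp only [Set.domRestrict_apply, y.2, dif_pos]
    rw [this]
    exact hL
  · intro y hy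
    have h1 := hexp ⟨y, hy⟩
    simp only [hy, dif_pos]
    exact h1.symm

theorem rankLe_of {m : ℕ} {Y : Set (Fin m → ℂ)} {r : ℕ} (h : H113G.FiniteRank Y r) :
    RankLe Y r := by
  classical
  intro u hu hu0
  obtain ⟨a, ha, L, hL, hexp⟩ := h (fun l y => if hy : y ∈ Y then u l ⟨y, hy⟩ else 1)
    (fun l => by
      rw [continuousOn_iff_continuous_domRestrict]
      have : Y.domRestrict (fun y => if hy : y ∈ Y then u l ⟨y, hy⟩ else 1) = u l := by
        funext y
        simp only [Set.domRestrict_apply, y.2, dif_pos]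
      rw [this]
      exact hu l)
    (fun l y hy => by
      simp only [hy, dif_pos]
      exact hu0 l ⟨y, hy⟩)
  refine ⟨a, ha, fun y => L y, continuousOn_iff_continuous_domRestrict.1 hL, fun t => ?_⟩
  have h1 := hexp t t.2
  simp only [t.2, dif_pos] at h1
  exact h1.symm

theorem result :
    (∀ (m : ℕ) (Y : Set (Fin m → ℂ)), AffineManifold Y → ∃ r : ℕ, RankLe Y r) ∧
    (∀ (m : ℕ) (Y : Set (Fin m → ℂ)), AffineManifold Y → ∀ r : ℕ, RankLe Y r →
      (HolStar Y).encard ≤ ((64 ^ r : ℕ) : ℕ∞)) := by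
  classical
  refine ⟨fun m Y hY => ?_, fun m Y hY r hr => ?_⟩
  · obtain ⟨r, hr⟩ := finiteRank_of_alg Pool.Agent.Y155.Gor.chart Pool.Agent.Y155.Gor.ident
      Pool.Agent.Y155.Gor.ext Pool.Agent.Y155.Gor.alg Pool.Agent.Y155.Gor.pcov
      Pool.Agent.Y155.Gor.root Pool.Agent.Y225.Gor.COV Pool.Agent.Y225.Gor.RDT
      Pool.Agent.Y852.Gor.s_FG Pool.Agent.Y225.Gor.TRANS hY.alg hY.smooth hY.conn
    exact ⟨r, rankLe_of hr⟩
  · refine encard_le_of_forall _ _ fun M f hf hfS => ?_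
    let G : Fin M → (Fin m → ℂ) → ℂ := fun i x => if hx : x ∈ Y then f i ⟨x, hx⟩ else 0
    have hG' : ∀ i (y : Y), G i y = f i y := fun i y => by simp only [G, y.2, dif_pos]
    have hG'' : ∀ i y (hy : y ∈ Y), G i y = f i ⟨y, hy⟩ := fun i y hy => hG' i ⟨y, hy⟩
    refine count_main Pool.Agent.Y155.Gor.ident Pool.Agent.Y155.Gor.alg Pool.Agent.Y155.Gor.pcov
      Pool.Agent.Y225.Gor.RDT Pool.Agent.Y225.Gor.GROW Pool.Agent.Y225.Gor.CONST
      Pool.Agent.Y225.Gor.COUNT hY.alg (Pool.Agent.Y155.Gor.chart m Y hY.smooth) hY.conn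
      (finiteRank_iff hr) M G ?_ ?_ ?_ ?_ ?_
    · intro i p hp
      obtain ⟨U, hU, hpU, h, hh, hh'⟩ := (hfS i).2.2 ⟨p, hp⟩
      exact ⟨U, hU, hpU, h, hh, fun y hy hyU => by rw [hG'' i y hy]; exact hh' ⟨y, hy⟩ hyU⟩
    · intro i y hy
      rw [hG'' i y hy]
      exact ((hfS i).1 ⟨y, hy⟩).1
    · intro i y hy
      rw [hG'' i y hy]
      exact ((hfS i).1 ⟨y, hy⟩).2
    · intro i
      obtain ⟨a, b, hab⟩ := (hfS i).2.1
      exact ⟨a, a.2, b, b.2, by rw [hG' i a, hG' i b]; exact hab⟩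
    · intro i j hij
      by_contra h
      push Not at h
      apply hij
      apply hf
      funext y
      rw [← hG' i y, ← hG' j y]
      exact h y y.2

end Pool.Agent.Results.MP_9bd952_ag.RankBound
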